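import Pool.Agent.Y486.Final

/-!
# The sign of the scalar curvature is not determined by the Kähler class

The manifold is the ruled surface `Γ \ (ℍ × ℙ¹)` over a compact quotient `Γ \ ℍ` of the upper half
plane by a torsion free congruence subgroup of a quaternion order, where
`g = (a, b; c, d) ∈ Γ ⊂ SL(2, ℝ)` acts by `(z, [x₀ : x₁]) ↦ (g z, [(c z + d) x₀ : x₁])`.
The Kähler classes form a two parameter family `(a, c)`, `0 < a < c`, and the total scalar curvature
is a positive multiple of `2 c - 3 a`. No class contains a metric of negative scalar curvature, and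
the classes with `c < 2 a` contain no metric of positive scalar curvature.
-/

set_option autoImplicit false

open scoped Manifold ContDiff

namespace Pool.Agent.Results.MP_8e561c_gt.BothSignsFail

open Pool.Agent.W549.CY (Cn dz dzbar HermitianMetric)
open Pool.Agent.TH598 (IsKahler scal HasTotalScalar)

/-- The metric `h'` lies in the Kähler class of `h`: `ω' = ω + i∂∂̄ψ` for a smooth real function `ψ`
on `X`, i.e. `g'_{j k̄} = g_{j k̄} + ∂²ψ/∂z_j∂z̄_k` in every chart. -/
def SameClass {n : ℕ} {X : Type} [TopologicalSpace X] [ChartedSpace (Cn n) X]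
    (h h' : HermitianMetric n X) : Prop :=
  ∃ ψ : X → ℝ, ContMDiff 𝓘(ℝ, Cn n) 𝓘(ℝ, ℝ) ∞ ψ ∧
    ∀ e ∈ atlas (Cn n) X, ∀ z ∈ e.target, ∀ j k : Fin n,
      h'.g e z j k = h.g e z j k + dz j (dzbar k fun w => ((ψ (e.symm w) : ℝ) : ℂ)) z

/-- There is a compact connected Hausdorff complex surface `X` carrying

* a Kähler metric `h₀` of positive total scalar curvature such that every Kähler metric in the class
  of `h₀` has scalar curvature `≤ 0` at some point;
* a Kähler metric `h₁` of negative total scalar curvature such that every Kähler metric in the class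
  of `h₁` has scalar curvature `≥ 0` at some point. -/
theorem result : ∃ (X : Type) (_ : TopologicalSpace X) (_ : CompactSpace X) (_ : T2Space X)
    (_ : ConnectedSpace X) (_ : ChartedSpace (Cn 2) X) (_ : IsManifold 𝓘(ℂ, Cn 2) ω X)
    (_ : MeasurableSpace X) (_ : BorelSpace X),
    (∃ h₀ : HermitianMetric 2 X, IsKahler h₀ ∧ (∃ T > 0, HasTotalScalar h₀ T) ∧
      ∀ h : HermitianMetric 2 X, IsKahler h → SameClass h₀ h → ∃ x, scal h x ≤ 0) ∧
    (∃ h₁ : HermitianMetric 2 X, IsKahler h₁ ∧ (∃ T < 0, HasTotalScalar h₁ T) ∧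
      ∀ h : HermitianMetric 2 X, IsKahler h → SameClass h₁ h → ∃ x, 0 ≤ scal h x) :=
  Pool.Agent.Y486.t_final

end Pool.Agent.Results.MP_8e561c_gt.BothSignsFail
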